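import Pool.Agent.Run7.h425.RN.Iface

set_option autoImplicit false

namespace Run7.h417.RN

open MeasureTheory Real
open scoped ENNReal
open Pool.Agent.Run7.h425.RN

lemma sn_meas : Measurable sn := by
  have h : Continuous sn := Complex.continuous_im.comp (fourier 1).continuous
  exact h.measurable

/-- centre -/
noncomputable def cen (a : ℝ) (p : T2) : Tc := p.1 + p.1 - p.2 + ((a * sn p.1 : ℝ) : Tc)

/-- first coordinate of the next point -/
noncomputable def N1 (a : ℝ) (q : T2 × Tc) : Tc := cen a q.1 + q.2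

lemma cen_meas (a : ℝ) : Measurable (cen a) := by
  unfold cen
  have h1 : Measurable fun q : T2 => ((a * sn q.1 : ℝ) : Tc) := by
    have h2 : Measurable fun x : ℝ => (x : Tc) := (AddCircle.continuous_mk' 1).measurable
    exact h2.comp ((sn_meas.comp measurable_fst).const_mul a)
  exact ((measurable_fst.add measurable_fst).sub measurable_snd).add h1

lemma N1_meas (a : ℝ) : Measurable (N1 a) :=
  ((cen_meas a).comp measurable_fst).add measurable_snd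

lemma orb_all (a : ℝ) (ω : ℕ → Tc) (p : T2) :
    (orb a ω p 1).1 = N1 a (p, ω 0) ∧
    (orb a ω p 2).1 = N1 a (((orb a ω p 1).1, p.1), ω 1) ∧
    (orb a ω p 3).1 = N1 a (((orb a ω p 2).1, (orb a ω p 1).1), ω 2) ∧
    (orb a ω p 4).1 = N1 a (((orb a ω p 3).1, (orb a ω p 2).1), ω 3) :=
  ⟨rfl, rfl, rfl, rfl⟩

lemma N1_eq (a : ℝ) (p : T2) (s : Tc) : N1 a (p, s) = cen a p + s := rfl

attribute [local irreducible] N1 cen

lemma sh_meas (n : ℕ) : Measurable (sh n) := by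
  rw [measurable_pi_iff]
  intro i
  exact measurable_pi_apply (n + i)

lemma one (hH : S_HEAD) (ν : Measure Tc) [IsProbabilityMeasure ν] (D : ℝ)
    (hν : ν ≤ ENNReal.ofReal D • (volume : Measure Tc)) (a : ℝ) (p : T2)
    (Φ : Tc × (ℕ → Tc) → ℝ≥0∞) (hΦ : Measurable Φ) :
    ∫⁻ ω, Φ (N1 a (p, ω 0), sh 1 ω) ∂(PP ν) ≤
      ENNReal.ofReal D * ∫⁻ x : Tc, ∫⁻ ω, Φ (x, ω) ∂(PP ν) := by
  have hm0 : Measurable fun ω : ℕ → Tc => ((p, ω 0) : T2 × Tc) :=
    measurable_const.prodMk (measurable_pi_apply 0)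
  have hm1 : Measurable fun ω : ℕ → Tc => N1 a (p, ω 0) := (N1_meas a).comp hm0
  have hm : Measurable fun ω : ℕ → Tc => Φ (N1 a (p, ω 0), sh 1 ω) :=
    hΦ.comp (hm1.prodMk (sh_meas 1))
  rw [hH ν _ hm]
  have h1 : ∀ s ω, Φ (N1 a (p, (cns s ω) 0), sh 1 (cns s ω)) = Φ (cen a p + s, ω) := by
    intro s ω
    have h2 : sh 1 (cns s ω) = ω := by
      funext i
      show cns s ω (1 + i) = ω i
      rw [add_comm]
      rfl
    rw [h2]
    have h3 : cns s ω 0 = s := rfl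
    rw [h3, N1_eq]
  simp only [h1]
  set G : Tc → ℝ≥0∞ := fun x => ∫⁻ ω, Φ (x, ω) ∂(PP ν) with hG
  have h3 : ∫⁻ s, ∫⁻ ω, Φ (cen a p + s, ω) ∂(PP ν) ∂ν = ∫⁻ s, G (cen a p + s) ∂ν := rfl
  rw [h3]
  calc ∫⁻ s, G (cen a p + s) ∂ν
      ≤ ∫⁻ s, G (cen a p + s) ∂(ENNReal.ofReal D • (volume : Measure Tc)) :=
        lintegral_mono' hν le_rfl
    _ = ENNReal.ofReal D * ∫⁻ s, G (cen a p + s) := by
        rw [lintegral_smul_measure, smul_eq_mul]
    _ = ENNReal.ofReal D * ∫⁻ x, G x := by rw [lintegral_add_left_eq_self]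

theorem t_KER (hH : S_HEAD) : S_KER := by
  intro ν _ D hν a p F hF
  set d : ℝ≥0∞ := ENNReal.ofReal D with hd
  have hdt : d ≠ ⊤ := ENNReal.ofReal_ne_top
  have hn := N1_meas a
  have hs := sh_meas 1
  let G3 : Tc × Tc × Tc × (ℕ → Tc) → ℝ≥0∞ :=
    fun q => F (q.1, q.2.1, q.2.2.1, N1 a ((q.2.2.1, q.2.1), q.2.2.2 0), sh 1 q.2.2.2)
  let G2 : Tc × Tc × (ℕ → Tc) → ℝ≥0∞ :=
    fun q => G3 (q.1, q.2.1, N1 a ((q.2.1, q.1), q.2.2 0), sh 1 q.2.2)
  let G1 : Tc × (ℕ → Tc) → ℝ≥0∞ :=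
    fun q => G2 (q.1, N1 a ((q.1, p.1), q.2 0), sh 1 q.2)
  have m3 : Measurable G3 := by
    have a1 : Measurable fun q : Tc × Tc × Tc × (ℕ → Tc) => q.2.2.2 :=
      measurable_snd.comp (measurable_snd.comp measurable_snd)
    have a2 : Measurable fun q : Tc × Tc × Tc × (ℕ → Tc) => q.2.2.1 :=
      measurable_fst.comp (measurable_snd.comp measurable_snd)
    have a3 : Measurable fun q : Tc × Tc × Tc × (ℕ → Tc) => q.2.1 :=
      measurable_fst.comp measurable_snd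
    have a4 : Measurable fun q : Tc × Tc × Tc × (ℕ → Tc) => q.2.2.2 0 :=
      (measurable_pi_apply 0).comp a1
    have a5 : Measurable fun q : Tc × Tc × Tc × (ℕ → Tc) =>
        (((q.2.2.1, q.2.1), q.2.2.2 0) : T2 × Tc) := (a2.prodMk a3).prodMk a4
    have a6 : Measurable fun q : Tc × Tc × Tc × (ℕ → Tc) =>
        N1 a ((q.2.2.1, q.2.1), q.2.2.2 0) := hn.comp a5
    have a7 : Measurable fun q : Tc × Tc × Tc × (ℕ → Tc) => sh 1 q.2.2.2 := hs.comp a1
    exact hF.comp (measurable_fst.prodMk (a3.prodMk (a2.prodMk (a6.prodMk a7))))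
  have m2 : Measurable G2 := by
    have a1 : Measurable fun q : Tc × Tc × (ℕ → Tc) => q.2.2 :=
      measurable_snd.comp measurable_snd
    have a2 : Measurable fun q : Tc × Tc × (ℕ → Tc) => q.2.1 :=
      measurable_fst.comp measurable_snd
    have a4 : Measurable fun q : Tc × Tc × (ℕ → Tc) => q.2.2 0 :=
      (measurable_pi_apply 0).comp a1
    have a5 : Measurable fun q : Tc × Tc × (ℕ → Tc) =>
        (((q.2.1, q.1), q.2.2 0) : T2 × Tc) := (a2.prodMk measurable_fst).prodMk a4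
    have a6 : Measurable fun q : Tc × Tc × (ℕ → Tc) =>
        N1 a ((q.2.1, q.1), q.2.2 0) := hn.comp a5
    have a7 : Measurable fun q : Tc × Tc × (ℕ → Tc) => sh 1 q.2.2 := hs.comp a1
    exact m3.comp (measurable_fst.prodMk (a2.prodMk (a6.prodMk a7)))
  have m1 : Measurable G1 := by
    have a4 : Measurable fun q : Tc × (ℕ → Tc) => q.2 0 :=
      (measurable_pi_apply 0).comp measurable_snd
    have a5 : Measurable fun q : Tc × (ℕ → Tc) =>
        (((q.1, p.1), q.2 0) : T2 × Tc) := (measurable_fst.prodMk measurable_const).prodMk a4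
    have a6 : Measurable fun q : Tc × (ℕ → Tc) =>
        N1 a ((q.1, p.1), q.2 0) := hn.comp a5
    have a7 : Measurable fun q : Tc × (ℕ → Tc) => sh 1 q.2 := hs.comp measurable_snd
    exact m2.comp (measurable_fst.prodMk (a6.prodMk a7))
  have e0 : ∀ ω : ℕ → Tc, F ((orb a ω p 1).1, (orb a ω p 2).1, (orb a ω p 3).1,
      (orb a ω p 4).1, sh 4 ω) = G1 (N1 a (p, ω 0), sh 1 ω) := by
    intro ω
    have h4 : sh 4 ω = sh 1 (sh 1 (sh 1 (sh 1 ω))) := by
      funext i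
      show ω (4 + i) = ω (1 + (1 + (1 + (1 + i))))
      congr 1
      ring
    obtain ⟨b1, b2, b3, b4⟩ := orb_all a ω p
    rw [b4, b3, b2, b1, h4]
    rfl
  simp only [e0]
  calc ∫⁻ ω, G1 (N1 a (p, ω 0), sh 1 ω) ∂(PP ν)
      ≤ d * ∫⁻ x₁ : Tc, ∫⁻ ω, G1 (x₁, ω) ∂(PP ν) := one hH ν D hν a p G1 m1
    _ ≤ d * ∫⁻ x₁ : Tc, d * ∫⁻ x₂ : Tc, ∫⁻ ω, G2 (x₁, x₂, ω) ∂(PP ν) := by
        gcongr with x₁
        exact one hH ν D hν a (x₁, p.1) (fun q => G2 (x₁, q.1, q.2))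
          (m2.comp (measurable_const.prodMk (measurable_fst.prodMk measurable_snd)))
    _ ≤ d * ∫⁻ x₁ : Tc, d * ∫⁻ x₂ : Tc, d * ∫⁻ x₃ : Tc, ∫⁻ ω, G3 (x₁, x₂, x₃, ω) ∂(PP ν) := by
        gcongr with x₁ x₂
        exact one hH ν D hν a (x₂, x₁) (fun q => G3 (x₁, x₂, q.1, q.2))
          (m3.comp (measurable_const.prodMk (measurable_const.prodMk
            (measurable_fst.prodMk measurable_snd))))
    _ ≤ d * ∫⁻ x₁ : Tc, d * ∫⁻ x₂ : Tc, d * ∫⁻ x₃ : Tc, d * ∫⁻ x₄ : Tc,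
          ∫⁻ ω, F (x₁, x₂, x₃, x₄, ω) ∂(PP ν) := by
        gcongr with x₁ x₂ x₃
        exact one hH ν D hν a (x₃, x₂) (fun q => F (x₁, x₂, x₃, q.1, q.2))
          (hF.comp (measurable_const.prodMk (measurable_const.prodMk
            (measurable_const.prodMk (measurable_fst.prodMk measurable_snd)))))
    _ = d ^ 4 * ∫⁻ x₁ : Tc, ∫⁻ x₂ : Tc, ∫⁻ x₃ : Tc, ∫⁻ x₄ : Tc,
          ∫⁻ ω, F (x₁, x₂, x₃, x₄, ω) ∂(PP ν) := by
        simp only [lintegral_const_mul' d _ hdt]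
        ring

end Run7.h417.RN
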