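import Pool.Agent.Run7.h425.RN.Iface

set_option autoImplicit false

namespace Run7.h417.RN

open MeasureTheory Real
open scoped ENNReal
open Pool.Agent.Run7.h425.RN

/-- bounded measurable functions of `(ω, p)` -/
structure BM (F : (ℕ → Tc) × T2 → ℝ) : Prop where
  meas : Measurable F
  bd : ∃ M : ℝ, ∀ q, |F q| ≤ M

lemma BM.inner {F : (ℕ → Tc) × T2 → ℝ} (h : BM F) (ω : ℕ → Tc) :
    Integrable (fun p => F (ω, p)) volume := by
  obtain ⟨M, hM⟩ := h.bd
  exact Integrable.of_bound (h.meas.comp measurable_prodMk_left).aestronglyMeasurable M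
    (Filter.Eventually.of_forall fun p => hM (ω, p))

lemma BM.sm {F : (ℕ → Tc) × T2 → ℝ} (h : BM F) :
    StronglyMeasurable fun ω => ∫ p, F (ω, p) ∂(volume : Measure T2) :=
  h.meas.stronglyMeasurable.integral_prod_right'

lemma BM.outer {F : (ℕ → Tc) × T2 → ℝ} (h : BM F) (ν : Measure Tc) [IsProbabilityMeasure ν] :
    Integrable (fun ω => ∫ p, F (ω, p) ∂(volume : Measure T2)) (PP ν) := by
  obtain ⟨M, hM⟩ := h.bd
  refine Integrable.of_bound h.sm.aestronglyMeasurable M (Filter.Eventually.of_forall fun ω => ?_)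
  refine (norm_integral_le_of_norm_le_const (C := M)
    (Filter.Eventually.of_forall fun p => hM (ω, p))).trans ?_
  rw [probReal_univ, mul_one]

lemma BM.le {F G : (ℕ → Tc) × T2 → ℝ} (hF : BM F) (hG : BM G) (h : ∀ q, F q ≤ G q)
    (ν : Measure Tc) [IsProbabilityMeasure ν] :
    ∫ ω, ∫ p, F (ω, p) ∂(volume : Measure T2) ∂(PP ν) ≤
      ∫ ω, ∫ p, G (ω, p) ∂(volume : Measure T2) ∂(PP ν) :=
  integral_mono (hF.outer ν) (hG.outer ν)
    fun ω => integral_mono (hF.inner ω) (hG.inner ω) fun p => h (ω, p)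

lemma BM.add {F G : (ℕ → Tc) × T2 → ℝ} (hF : BM F) (hG : BM G) : BM fun q => F q + G q := by
  obtain ⟨M, hM⟩ := hF.bd
  obtain ⟨N, hN⟩ := hG.bd
  exact ⟨hF.meas.add hG.meas, M + N, fun q => (abs_add_le _ _).trans (add_le_add (hM q) (hN q))⟩

lemma BM.int_add {F G : (ℕ → Tc) × T2 → ℝ} (hF : BM F) (hG : BM G)
    (ν : Measure Tc) [IsProbabilityMeasure ν] :
    ∫ ω, ∫ p, (F (ω, p) + G (ω, p)) ∂(volume : Measure T2) ∂(PP ν) =
      (∫ ω, ∫ p, F (ω, p) ∂(volume : Measure T2) ∂(PP ν)) +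
      ∫ ω, ∫ p, G (ω, p) ∂(volume : Measure T2) ∂(PP ν) := by
  rw [← integral_add (hF.outer ν) (hG.outer ν)]
  congr 1
  funext ω
  rw [integral_add (hF.inner ω) (hG.inner ω)]

lemma sh_cont (n : ℕ) : Continuous (sh n) := by
  apply continuous_pi
  intro i
  exact continuous_apply (n + i)

lemma logA (hC : S_CONT) (hB : S_BND) (a : ℝ) (ha : 1 ≤ |a|) (n : ℕ) :
    BM fun q => log ‖A a q.1 q.2 n‖ := by
  obtain ⟨_, hA⟩ := hC a n
  have hb := (hB a ha).1
  constructor
  · exact (Real.measurable_log.comp hA.norm.measurable)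
  · refine ⟨|log ((10 * |a|) ^ n)| + |log (1 / 2)|, fun q => ?_⟩
    obtain ⟨h1, h2⟩ := hb q.1 q.2 n
    have h3 : 0 < ‖A a q.1 q.2 n‖ := by linarith
    have h4 := Real.log_le_log h3 h1
    have h5 := Real.log_le_log (by norm_num) h2
    rw [abs_le]
    constructor
    · have := neg_abs_le (log (1 / 2 : ℝ))
      have := abs_nonneg (log ((10 * |a|) ^ n))
      linarith
    · have := le_abs_self (log ((10 * |a|) ^ n))
      have := abs_nonneg (log (1 / 2 : ℝ))
      linarith

lemma Lam_zero (ν : Measure Tc) [IsProbabilityMeasure ν] (a : ℝ) : Lam a ν 0 = 0 := by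
  unfold Lam
  have h1 : ∀ (ω : ℕ → Tc) (p : T2), log ‖A a ω p 0‖ = 0 := by
    intro ω p
    show log ‖ContinuousLinearMap.id ℝ (ℝ × ℝ)‖ = 0
    rw [ContinuousLinearMap.norm_id, log_one]
  simp only [h1, integral_zero]

attribute [local irreducible] Pool.Agent.Run7.h425.RN.A Pool.Agent.Run7.h425.RN.orb

lemma orb_meas' (hC : S_CONT) (a : ℝ) (n : ℕ) :
    Measurable fun q : (ℕ → Tc) × T2 => orb a q.1 q.2 n := by
  have horb := (hC a n).1
  exact horb.measurable

lemma sh_meas' (n : ℕ) : Measurable (sh n) := by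
  rw [measurable_pi_iff]
  intro i
  exact measurable_pi_apply (n + i)

lemma map_meas (hC : S_CONT) (a : ℝ) (n : ℕ) :
    Measurable fun q : (ℕ → Tc) × T2 => ((sh n q.1, orb a q.1 q.2 n) : (ℕ → Tc) × T2) :=
  ((sh_meas' n).comp measurable_fst).prodMk (orb_meas' hC a n)

lemma BM.comp {F : (ℕ → Tc) × T2 → ℝ} (hF : BM F) {T : (ℕ → Tc) × T2 → (ℕ → Tc) × T2}
    (hT : Measurable T) : BM fun q => F (T q) :=
  ⟨hF.meas.comp hT, hF.bd.imp fun _ h q => h (T q)⟩

theorem t_SUB (hG : S_GLUE) (hC : S_CONT) (hB : S_BND) (hK : S_COC) (hS : S_STAT) : S_SUB := by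
  intro ν _ a ha
  refine ⟨?_, ?_⟩
  · exact Lam_zero ν a
  · intro n m
    have hn := logA hC hB a ha n
    have hm := logA hC hB a ha m
    have hnm := logA hC hB a ha (n + m)
    -- the function of the second block
    have hc0 := BM.comp hm (map_meas hC a n)
    have hc : BM fun q : (ℕ → Tc) × T2 => log ‖A a (sh n q.1) (orb a q.1 q.2 n) m‖ := hc0
    clear hc0
    have hle : ∀ q : (ℕ → Tc) × T2, log ‖A a q.1 q.2 (n + m)‖ ≤
        log ‖A a (sh n q.1) (orb a q.1 q.2 n) m‖ + log ‖A a q.1 q.2 n‖ := by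
      intro q
      have h1 := ((hK a q.2).1 q.1 n m).2
      have p1 : 0 < ‖A a (sh n q.1) (orb a q.1 q.2 n) m‖ := by
        have := ((hB a ha).1 (sh n q.1) (orb a q.1 q.2 n) m).2
        linarith
      have p2 : 0 < ‖A a q.1 q.2 n‖ := by
        have := ((hB a ha).1 q.1 q.2 n).2
        linarith
      have p3 : 0 < ‖A a q.1 q.2 (n + m)‖ := by
        have := ((hB a ha).1 q.1 q.2 (n + m)).2
        linarith
      rw [← Real.log_mul p1.ne' p2.ne']
      apply Real.log_le_log p3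
      rw [h1]
      exact ContinuousLinearMap.opNorm_comp_le _ _
    have h1 := BM.le hnm (hc.add hn) hle ν
    rw [BM.int_add hc hn ν] at h1
    have h2 : ∀ ω : ℕ → Tc, ∫ p, log ‖A a (sh n ω) (orb a ω p n) m‖ ∂(volume : Measure T2)
        = ∫ p, log ‖A a (sh n ω) p m‖ ∂(volume : Measure T2) := by
      intro ω
      have hst := hS a ω n
      have h3 := integral_map (μ := (volume : Measure T2)) hst.measurable.aemeasurable
        (f := fun p => log ‖A a (sh n ω) p m‖)
        (hm.meas.comp measurable_prodMk_left).aestronglyMeasurable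
      rw [hst.map_eq] at h3
      exact h3.symm
    have h4 : ∫ ω, ∫ p, log ‖A a (sh n ω) (orb a ω p n) m‖ ∂(volume : Measure T2) ∂(PP ν)
        = Lam a ν m := by
      have h5 : (fun ω => ∫ p, log ‖A a (sh n ω) (orb a ω p n) m‖ ∂(volume : Measure T2))
          = fun ω => (fun ω' => ∫ p, log ‖A a ω' p m‖ ∂(volume : Measure T2)) (sh n ω) := by
        funext ω
        exact h2 ω
      rw [h5]
      have hg := (hG ν n).2
      have h6 := integral_map (μ := PP ν) hg.measurable.aemeasurable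
        (f := fun ω' => ∫ p, log ‖A a ω' p m‖ ∂(volume : Measure T2))
        hm.sm.aestronglyMeasurable
      rw [hg.map_eq] at h6
      exact h6.symm
    unfold Lam at h4 ⊢
    linarith

end Run7.h417.RN
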