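import Pool.Agent.Run7.h425.RN.Iface

set_option autoImplicit false

namespace Run7.h417.RN

open MeasureTheory Real
open scoped ENNReal
open Pool.Agent.Run7.h425.RN

lemma J_apply (c : ℝ) (v : ℝ × ℝ) : J c v = (c * v.1 - v.2, v.1) := rfl

lemma J_le (c : ℝ) : ‖J c‖ ≤ 1 + |c| := by
  apply ContinuousLinearMap.opNorm_le_bound _ (by positivity)
  intro v
  rw [J_apply, Prod.norm_def, Real.norm_eq_abs, Real.norm_eq_abs]
  have h1 : |v.1| ≤ ‖v‖ := norm_fst_le v
  have h2 : |v.2| ≤ ‖v‖ := norm_snd_le v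
  apply max_le
  · have h3 := abs_sub (c * v.1) v.2
    rw [abs_mul] at h3
    have h4 := mul_le_mul_of_nonneg_left h1 (abs_nonneg c)
    nlinarith
  · have := mul_nonneg (abs_nonneg c) (norm_nonneg v)
    nlinarith

lemma J_ge (c : ℝ) : 1 ≤ ‖J c‖ := by
  have h := (J c).le_opNorm ((0, 1) : ℝ × ℝ)
  have h1 : ‖J c ((0, 1) : ℝ × ℝ)‖ = 1 := by
    rw [J_apply, Prod.norm_def]
    simp
  have h2 : ‖((0, 1) : ℝ × ℝ)‖ = 1 := by
    rw [Prod.norm_def]
    simp
  rw [h1, h2, mul_one] at h
  exact h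

lemma g_cont (a : ℝ) : Continuous (g a) := by
  unfold g cs
  have h : Continuous fun x : Tc => (fourier 1 x : ℂ).re :=
    Complex.continuous_re.comp (fourier 1).continuous
  exact continuous_const.add (continuous_const.mul h)

lemma cont_int {f : Tc → ℝ} (hf : Continuous f) : Integrable f (volume : Measure Tc) :=
  hf.integrable_of_hasCompactSupport (HasCompactSupport.of_compactSpace f)

lemma A_one (a : ℝ) (ω : ℕ → Tc) (p : T2) : A a ω p 1 = J (g a p.1) := by
  show (J (g a (orb a ω p 0).1)).comp (ContinuousLinearMap.id ℝ (ℝ × ℝ)) = J (g a p.1)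
  rw [ContinuousLinearMap.comp_id]
  rfl

lemma Lam_one (hH : S_HHM) (hN : S_NEG) (hP : S_PTW) (ν : Measure Tc) [IsProbabilityMeasure ν]
    (a : ℝ) (ha : 1 ≤ |a|) :
    Lam a ν 1 ≤ log (π * |a|) + 9 * |a| ^ (-(1 / 4) : ℝ) := by
  have e1 : Lam a ν 1 = ∫ p : T2, log ‖J (g a p.1)‖ := by
    unfold Lam
    simp only [A_one]
    rw [integral_const, probReal_univ, one_smul]
  have hl : Continuous fun x : Tc => log (1 + |g a x|) := by
    apply Continuous.log
    · exact continuous_const.add (g_cont a).abs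
    · intro x
      have := abs_nonneg (g a x)
      linarith
  have hl2 : Continuous fun x : Tc => 1 / 2 * log (1 + g a x ^ 2) := by
    apply continuous_const.mul
    apply Continuous.log
    · exact continuous_const.add ((g_cont a).pow 2)
    · intro x
      have := sq_nonneg (g a x)
      linarith
  have e2 : ∫ p : T2, log ‖J (g a p.1)‖ ≤ ∫ p : T2, log (1 + |g a p.1|) := by
    apply integral_mono_of_nonneg
    · exact Filter.Eventually.of_forall fun p => Real.log_nonneg (J_ge _)
    · exact (cont_int hl).comp_fst volume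
    · exact Filter.Eventually.of_forall fun p =>
        Real.log_le_log (lt_of_lt_of_le one_pos (J_ge _)) (J_le _)
  have e3 : ∫ p : T2, log (1 + |g a p.1|) = ∫ x : Tc, log (1 + |g a x|) := by
    have h1 := integral_prod (μ := (volume : Measure Tc)) (ν := (volume : Measure Tc))
      (fun p : T2 => log (1 + |g a p.1|)) ((cont_int hl).comp_fst volume)
    rw [Measure.volume_eq_prod, h1]
    congr 1
    funext x
    show ∫ _y : Tc, log (1 + |g a x|) = log (1 + |g a x|)
    rw [integral_const, probReal_univ, one_smul]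
  have e4 : ∫ x : Tc, log (1 + |g a x|) ≤
      ∫ x : Tc, (1 / 2 * log (1 + g a x ^ 2) + |g a x| ^ (-(1 / 4) : ℝ)) := by
    apply integral_mono (cont_int hl) ((cont_int hl2).add (hN a ha).1)
    intro x
    show log (1 + |g a x|) ≤ 1 / 2 * log (1 + g a x ^ 2) + |g a x| ^ (-(1 / 4) : ℝ)
    by_cases hx : g a x = 0
    · rw [hx]
      simp
    · exact (hP (g a x) hx).2
  rw [integral_add (cont_int hl2) (hN a ha).1] at e4
  have h5 := (hH a ha).2
  have h6 := (hN a ha).2
  have h7 : 1 / |a| ≤ |a| ^ (-(1 / 4) : ℝ) := by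
    have h8 : 1 / |a| = |a| ^ (-1 : ℝ) := by
      rw [Real.rpow_neg_one, one_div]
    rw [h8]
    exact Real.rpow_le_rpow_of_exponent_le ha (by norm_num)
  rw [e1]
  linarith

theorem t_UPP (hH : S_HHM) (hN : S_NEG) (hP : S_PTW) (_hS : S_STAT) (hU : S_SUB) : S_UPP := by
  intro ν _ a ha n hn
  obtain ⟨h0, h1⟩ := hU ν a ha
  have h2 : ∀ k : ℕ, Lam a ν k ≤ k * Lam a ν 1 := by
    intro k
    induction k with
    | zero => simp [h0]
    | succ k ih =>
      have := h1 k 1
      push_cast
      linarith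
  have h3 := Lam_one hH hN hP ν a ha
  have h4 : (0:ℝ) ≤ n := Nat.cast_nonneg n
  exact (h2 n).trans (mul_le_mul_of_nonneg_left h3 h4)

end Run7.h417.RN
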